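import Mathlib
import Pool.Agent.H88R3.BA.Best

set_option autoImplicit false

/-!
# Package K2: a checked table describes a game tree
-/

namespace Pool.Agent.H88R3.BA

open Relation

namespace K2

variable {n N : ℕ}

/-- the game structure coded by a table -/
def mk (n N : ℕ) (F : ℕ → ℕ → ℕ → ℕ) (hT : ∀ y < N, F 2 y 0 < n + 1) : Game n (Fin N) where
  move x y := Ch F x y
  turn x := ⟨F 2 x 0, hT x x.2⟩
  le i u v := F 3 i u ≤ F 3 i v
  val k x := Tr F (Nat.pair 1 k) x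

variable {F : ℕ → ℕ → ℕ → ℕ} {hT : ∀ y < N, F 2 y 0 < n + 1}

theorem isEnd_iff (x : Fin N) : (mk n N F hT).IsEnd x ↔ En N F x := by
  constructor
  · intro h y hy hc
    exact h ⟨y, hy⟩ hc
  · intro h y hc
    exact h y y.2 hc

theorem isTree (h0 : 0 < N) (hP : ∀ y < N, 0 < y → F 0 y 0 < y) :
    (mk n N F hT).IsTree := by
  refine ⟨⟨⟨0, h0⟩, ?_, ?_, ?_⟩, ?_, ?_⟩
  · intro v hv
    exact absurd hv.1 (lt_irrefl 0)
  · intro v hv
    have hv0 : 0 < v.1 := by
      rcases Nat.eq_zero_or_pos v.1 with e | e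
      · exact absurd (Fin.ext e) hv
      · exact e
    have hlt := hP v.1 v.2 hv0
    refine ⟨⟨F 0 v.1 0, hlt.trans v.2⟩, ⟨hv0, rfl⟩, ?_⟩
    intro u hu
    exact Fin.ext hu.2.symm
  · intro v
    obtain ⟨v, hv⟩ := v
    induction v using Nat.strong_induction_on with
    | _ v ih =>
      rcases Nat.eq_zero_or_pos v with e | e
      · subst e
        exact .refl
      · have hlt := hP v hv e
        exact (ih (F 0 v 0) hlt (hlt.trans hv)).tail ⟨e, rfl⟩
  · intro i u v _ _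
    exact le_total _ _
  · intro i u v w _ _ _ h1 h2
    exact le_trans h1 h2

theorem loc (hC : ChkA n N F) :
    Loc (mk n N F hT) (fun x y => Be F x y) (fun j v => F 3 j v) (fun j v => F 4 j v) := by
  obtain ⟨h0, hP, hT', hL, hB, hI⟩ := hC
  have hne : ∀ x : Fin N, ¬ (mk n N F hT).IsEnd x → ¬ En N F x :=
    fun x hx h => hx ((isEnd_iff x).2 h)
  refine ⟨?_, ?_, ?_, ?_, ?_, ?_, ?_⟩
  · intro x hx j
    exact hL x x.2 ((isEnd_iff x).1 hx) j j.2
  · intro i u v _ _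
    exact Iff.rfl
  · intro x y
    constructor
    · rintro ⟨h1, h2⟩
      exact ⟨h1, fun z hz => ((hB x x.2 y y.2 h1).1 h2) z z.2 hz⟩
    · rintro ⟨h1, h2⟩
      exact ⟨h1, (hB x x.2 y y.2 h1).2 fun z hz hxz => h2 ⟨z, hz⟩ hxz⟩
  · intro x hx j
    obtain ⟨y, hy, h1, h2⟩ := (hI x x.2 (hne x hx) j j.2).1.1
    exact ⟨⟨y, hy⟩, h1, h2⟩
  · intro x y j hxy
    have hx : ¬ En N F x := fun h => h y y.2 hxy.1
    exact (hI x x.2 hx j j.2).1.2 y y.2 hxy
  · intro x hx j
    obtain ⟨y, hy, h1, h2⟩ := (hI x x.2 (hne x hx) j j.2).2.1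
    exact ⟨⟨y, hy⟩, h1, h2⟩
  · intro x y j hxy
    have hx : ¬ En N F x := fun h => h y y.2 hxy.1
    exact (hI x x.2 hx j j.2).2.2 y y.2 hxy

theorem ch_lt (hP : ∀ y < N, 0 < y → F 0 y 0 < y) {x y : ℕ} (hy : y < N) (h : Ch F x y) :
    x < y := by
  have := hP y hy h.1
  rw [h.2] at this
  exact this

end K2

open K2 in
theorem sound {n L N : ℕ} {F : ℕ → ℕ → ℕ → ℕ} (h : Chk n L N F) :
    ∃ G : Game n (Fin N), G.IsTree ∧
      ∀ a : Fml n, a.enc < L → ∀ x : Fin N, (G.sat a x ↔ Tr F a.enc x) := by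
  obtain ⟨hA, hTab⟩ := h
  have hA' := hA
  obtain ⟨h0, hP, hT, hL, hB, hI⟩ := hA
  have hTree : (K2.mk n N F hT).IsTree := isTree h0 hP
  have hbest : (fun x y : Fin N => Be F x y) = (K2.mk n N F hT).best :=
    Loc.eq_best hTree (loc hA')
  refine ⟨K2.mk n N F hT, hTree, ?_⟩
  intro a
  induction a with
  | bot =>
    intro ha x
    have := (hTab x x.2).1 ha
    constructor
    · intro h
      exact h.elim
    · intro h
      exact (this h).elim
  | prop k =>
    intro ha x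
    exact Iff.rfl
  | imp a b iha ihb =>
    intro ha x
    have h1 : a.enc ≤ Nat.pair 2 (Nat.pair a.enc b.enc) :=
      (Nat.left_le_pair _ _).trans (Nat.right_le_pair _ _)
    have h2 : b.enc ≤ Nat.pair 2 (Nat.pair a.enc b.enc) :=
      (Nat.right_le_pair _ _).trans (Nat.right_le_pair _ _)
    have ha' : Nat.pair 2 (Nat.pair a.enc b.enc) < L := ha
    have h3 := (hTab x x.2).2.1 a.enc (h1.trans_lt ha') b.enc (h2.trans_lt ha') ha'
    refine Iff.trans ?_ h3.symm
    exact imp_congr (iha (h1.trans_lt ha') x) (ihb (h2.trans_lt ha') x)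
  | atEnd =>
    intro ha x
    have h3 := (hTab x x.2).2.2.1 ha
    exact (isEnd_iff x).trans h3.symm
  | turn i =>
    intro ha x
    have h3 := (hTab x x.2).2.2.2.1 i.1 i.2 ha
    refine Iff.trans ?_ h3.symm
    refine and_congr (not_congr (isEnd_iff x)) ?_
    exact Fin.ext_iff
  | move a iha =>
    intro ha x
    have h1 : a.enc ≤ Nat.pair 5 a.enc := Nat.right_le_pair _ _
    have ha' : Nat.pair 5 a.enc < L := ha
    have h3 := (hTab x x.2).2.2.2.2.1 a.enc (h1.trans_lt ha') ha'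
    refine Iff.trans ?_ h3.symm
    constructor
    · rintro ⟨y, hy, hy'⟩
      exact ⟨y, y.2, hy, (iha (h1.trans_lt ha') y).1 hy'⟩
    · rintro ⟨y, hyN, hy, hy'⟩
      exact ⟨⟨y, hyN⟩, hy, (iha (h1.trans_lt ha') ⟨y, hyN⟩).2 hy'⟩
  | moveBy i a iha =>
    intro ha x
    have h1 : a.enc ≤ Nat.pair 6 (Nat.pair i.1 a.enc) :=
      (Nat.right_le_pair _ _).trans (Nat.right_le_pair _ _)
    have ha' : Nat.pair 6 (Nat.pair i.1 a.enc) < L := ha
    have h3 := (hTab x x.2).2.2.2.2.2.1 i.1 i.2 a.enc (h1.trans_lt ha') ha'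
    refine Iff.trans ?_ h3.symm
    refine and_congr Fin.ext_iff ?_
    constructor
    · rintro ⟨y, hy, hy'⟩
      exact ⟨y, y.2, hy, (iha (h1.trans_lt ha') y).1 hy'⟩
    · rintro ⟨y, hyN, hy, hy'⟩
      exact ⟨⟨y, hyN⟩, hy, (iha (h1.trans_lt ha') ⟨y, hyN⟩).2 hy'⟩
  | movePlus a iha =>
    intro ha
    have h1 : a.enc ≤ Nat.pair 7 a.enc := Nat.right_le_pair _ _
    have ha' : Nat.pair 7 a.enc < L := ha
    have iha' := iha (h1.trans_lt ha')
    have h3 := fun x : Fin N =>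
      (hTab x x.2).2.2.2.2.2.2.1 a.enc (h1.trans_lt ha') ha'
    have key : ∀ x : Fin N, Tr F (Nat.pair 7 a.enc) x ↔
        ∃ y, TransGen (K2.mk n N F hT).move x y ∧ (K2.mk n N F hT).sat a y := by
      intro x
      induction x using hTree.wf.induction with
      | _ x ih =>
        rw [h3 x]
        constructor
        · rintro ⟨y, hyN, hxy, hy⟩
          have hm : (K2.mk n N F hT).move x ⟨y, hyN⟩ := hxy
          rcases hy with hy | hy
          · exact ⟨⟨y, hyN⟩, .single hm, (iha' ⟨y, hyN⟩).2 hy⟩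
          · obtain ⟨z, hz, hz'⟩ := (ih ⟨y, hyN⟩ (.single hm)).1 hy
            exact ⟨z, .head hm hz, hz'⟩
        · rintro ⟨z, hz, hz'⟩
          obtain ⟨y, hxy, hyz⟩ := TransGen.head'_iff.1 hz
          refine ⟨y, y.2, hxy, ?_⟩
          rcases Relation.reflTransGen_iff_eq_or_transGen.1 hyz with e | e
          · subst e
            exact Or.inl ((iha' _).1 hz')
          · exact Or.inr ((ih y (.single hxy)).2 ⟨z, e, hz'⟩)
    intro x
    exact (key x).symm
  | pref i a iha =>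
    intro ha x
    have h1 : a.enc ≤ Nat.pair 8 (Nat.pair i.1 a.enc) :=
      (Nat.right_le_pair _ _).trans (Nat.right_le_pair _ _)
    have ha' : Nat.pair 8 (Nat.pair i.1 a.enc) < L := ha
    have h3 := (hTab x x.2).2.2.2.2.2.2.2.1 i.1 i.2 a.enc (h1.trans_lt ha') ha'
    refine Iff.trans ?_ h3.symm
    refine and_congr (isEnd_iff x) ?_
    constructor
    · rintro ⟨y, hy, hle, hy'⟩
      exact ⟨y, y.2, (isEnd_iff y).1 hy, hle, (iha (h1.trans_lt ha') y).1 hy'⟩
    · rintro ⟨y, hyN, hy, hle, hy'⟩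
      exact ⟨⟨y, hyN⟩, (isEnd_iff ⟨y, hyN⟩).2 hy, hle, (iha (h1.trans_lt ha') ⟨y, hyN⟩).2 hy'⟩
  | best a iha =>
    intro ha x
    have h1 : a.enc ≤ Nat.pair 9 a.enc := Nat.right_le_pair _ _
    have ha' : Nat.pair 9 a.enc < L := ha
    have h3 := (hTab x x.2).2.2.2.2.2.2.2.2.1 a.enc (h1.trans_lt ha') ha'
    refine Iff.trans ?_ h3.symm
    change (∃ y, (K2.mk n N F hT).best x y ∧ _) ↔ _
    rw [← hbest]
    constructor
    · rintro ⟨y, hy, hy'⟩
      exact ⟨y, y.2, hy, (iha (h1.trans_lt ha') y).1 hy'⟩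
    · rintro ⟨y, hyN, hy, hy'⟩
      exact ⟨⟨y, hyN⟩, hy, (iha (h1.trans_lt ha') ⟨y, hyN⟩).2 hy'⟩
  | bestStar a iha =>
    intro ha
    have h1 : a.enc ≤ Nat.pair 10 a.enc := Nat.right_le_pair _ _
    have ha' : Nat.pair 10 a.enc < L := ha
    have iha' := iha (h1.trans_lt ha')
    have h3 := fun x : Fin N =>
      (hTab x x.2).2.2.2.2.2.2.2.2.2 a.enc (h1.trans_lt ha') ha'
    have key : ∀ x : Fin N, Tr F (Nat.pair 10 a.enc) x ↔
        ∃ y, ReflTransGen (K2.mk n N F hT).best x y ∧ (K2.mk n N F hT).sat a y := by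
      rw [← hbest]
      intro x
      induction x using hTree.wf.induction with
      | _ x ih =>
        rw [h3 x]
        constructor
        · rintro (hx | ⟨y, hyN, hxy, hy⟩)
          · exact ⟨x, .refl, (iha' x).2 hx⟩
          · have hm : (K2.mk n N F hT).move x ⟨y, hyN⟩ := hxy.1
            obtain ⟨z, hz, hz'⟩ := (ih ⟨y, hyN⟩ (.single hm)).1 hy
            exact ⟨z, .head hxy hz, hz'⟩
        · rintro ⟨z, hz, hz'⟩
          rcases ReflTransGen.cases_head hz with e | ⟨y, hxy, hyz⟩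
          · subst e
            exact Or.inl ((iha' _).1 hz')
          · exact Or.inr ⟨y, y.2, hxy, (ih y (.single hxy.1)).2 ⟨z, hyz, hz'⟩⟩
    intro x
    exact (key x).symm

end Pool.Agent.H88R3.BA
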